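import Pool.Agent.LCK.Stmts

/-! Squad LCK: row FCD. -/

set_option autoImplicit false

open Topology

namespace Pool.Agent.LCK.H90

/-- Row FCD. -/
theorem fcd : FCDStmt := by
  intro α β _ _
  constructor
  · intro S S' hS'S hScl hFC
    obtain ⟨F, hfin, hF, hcov⟩ := hFC
    refine ⟨(fun t => closure t ∩ S) '' F, hfin.image _, ?_, ?_⟩
    · rintro _ ⟨t, ht, rfl⟩
      obtain ⟨hpre, htS'⟩ := hF t ht
      refine ⟨?_, Set.inter_subset_right⟩
      exact hpre.subset_closure (Set.subset_inter subset_closure (htS'.trans hS'S))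
        Set.inter_subset_left
    · intro x hx
      have h1 : x ∈ closure (⋃₀ F) := closure_mono hcov (hScl hx)
      rw [Set.sUnion_eq_biUnion, hfin.closure_biUnion] at h1
      obtain ⟨t, ht, hxt⟩ := Set.mem_iUnion₂.mp h1
      exact ⟨closure t ∩ S, ⟨t, ht, rfl⟩, hxt, hx⟩
  · intro S f hf hFC
    obtain ⟨F, hfin, hF, hcov⟩ := hFC
    refine ⟨(fun t => f '' t) '' F, hfin.image _, ?_, ?_⟩
    · rintro _ ⟨t, ht, rfl⟩
      obtain ⟨hpre, htS⟩ := hF t ht
      exact ⟨hpre.image f (hf.mono htS), Set.image_mono htS⟩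
    · rintro _ ⟨x, hx, rfl⟩
      obtain ⟨t, ht, hxt⟩ := hcov hx
      exact ⟨f '' t, ⟨t, ht, rfl⟩, x, hxt, rfl⟩

end Pool.Agent.LCK.H90
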